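import Pool.Agent.H29.SL.Targets

/-!
The module `CII` of the board `so_modules` (`MP_5b3ee2_nt`): the local bound for the primes
`p` with `p ^ c ∣ q ^ 4 + q ^ 2 + 1`.
-/

set_option autoImplicit false

namespace Pool.Agent.H59.SL.CII

open Pool.Agent.H29.SL

/-- `p ^ a ≤ sg p a`. -/
theorem pow_le_sg (p a : ℕ) : p ^ a ≤ sg p a := by
  unfold sg
  exact Finset.single_le_sum (f := fun i => p ^ i) (fun i _ => Nat.zero_le _)
    (Finset.mem_range.mpr (Nat.lt_succ_self a))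

/-- From `(p - 1) u + 1 ≥ p ^ c` we get `p ^ (c - 1) ≤ u`, hence the bound for `c ≥ 2`. -/
theorem bound_of_ge {p c u : ℕ} (hp7 : 7 ≤ p) (hc : 2 ≤ c) (h : p ^ c ≤ (p - 1) * u + 1) :
    p ^ (3 * c) ≤ u ^ 10 := by
  obtain ⟨d, rfl⟩ : ∃ d, c = d + 1 := ⟨c - 1, by omega⟩
  have hu : p ^ d ≤ u := by
    by_contra hlt
    push Not at hlt
    have h1 : u + 1 ≤ p ^ d := hlt
    obtain ⟨x, rfl⟩ : ∃ x, p = x + 1 := ⟨p - 1, by omega⟩
    simp only [Nat.add_sub_cancel] at h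
    rw [pow_succ] at h
    nlinarith
  calc p ^ (3 * (d + 1)) ≤ p ^ (d * 10) := Nat.pow_le_pow_right (by omega) (by omega)
    _ = (p ^ d) ^ 10 := by rw [pow_mul]
    _ ≤ u ^ 10 := Nat.pow_le_pow_left hu 10

/-- The bound for `c = 1` from `p ≤ u + 1`. -/
theorem bound_one {p u : ℕ} (hp7 : 7 ≤ p) (h : p ≤ u + 1) : p ^ (3 * 1) ≤ u ^ 10 := by
  have h2 : p ≤ u ^ 2 := by nlinarith
  calc p ^ (3 * 1) ≤ (u ^ 2) ^ (3 * 1) := Nat.pow_le_pow_left h2 _
    _ = u ^ 6 := by rw [← pow_mul]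
    _ ≤ u ^ 10 := Nat.pow_le_pow_right (by omega) (by norm_num)

theorem both {p c u : ℕ} (h : p ^ (3 * c) ≤ u ^ 10) :
    p ^ (3 * c) ≤ 684 * u ^ 10 ∧ (p ≠ 7 → p ^ (3 * c) ≤ u ^ 10) :=
  ⟨h.trans (Nat.le_mul_of_pos_left _ (by norm_num)), fun _ => h⟩

/-- The key divisibility in the cases `e = 1, 2, 4, 5`. -/
theorem key {m q X : ℤ} {k : ℕ} (hm : m ∣ q ^ 4 + q ^ 2 + 1) (hX : m ∣ q ^ k * X + 1)
    (hcop : IsCoprime m (q ^ k)) (hk : k = 1 ∨ k = 2 ∨ k = 4 ∨ k = 5) :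
    m ∣ X ^ 4 + X ^ 2 + 1 := by
  have hcop4 : IsCoprime m ((q ^ k) ^ 4) := hcop.pow_right
  apply hcop4.dvd_of_dvd_mul_left
  obtain ⟨A, hA⟩ := hX
  obtain ⟨B, hB⟩ := hm
  have e1 : q ^ k * X = m * A - 1 := by linarith
  have e2 : (q ^ k) ^ 4 * (X ^ 4 + X ^ 2 + 1)
      = (q ^ k * X) ^ 4 + (q ^ k * X) ^ 2 * (q ^ k) ^ 2 + (q ^ k) ^ 4 := by ring
  rw [e2, e1]
  have e3 : (m * A - 1) ^ 4 + (m * A - 1) ^ 2 * (q ^ k) ^ 2 + (q ^ k) ^ 4
      = m * (A * ((m * A - 1) ^ 3 - (m * A - 1) ^ 2 + (m * A - 1) - 1)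
        + A * (m * A - 2) * (q ^ k) ^ 2) + (1 + (q ^ k) ^ 2 + (q ^ k) ^ 4) := by ring
  rw [e3]
  apply dvd_add (Dvd.intro _ rfl)
  have hq : m ∣ q ^ 4 + q ^ 2 + 1 := ⟨B, hB⟩
  rcases hk with rfl | rfl | rfl | rfl
  · have : (1 : ℤ) + (q ^ 1) ^ 2 + (q ^ 1) ^ 4 = q ^ 4 + q ^ 2 + 1 := by ring
    rw [this]; exact hq
  · have : (1 : ℤ) + (q ^ 2) ^ 2 + (q ^ 2) ^ 4 = (q ^ 4 + q ^ 2 + 1) * (q ^ 4 - q ^ 2 + 1) := by
      ring
    rw [this]; exact hq.mul_right _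
  · have : (1 : ℤ) + (q ^ 4) ^ 2 + (q ^ 4) ^ 4
        = (q ^ 4 + q ^ 2 + 1) * ((q ^ 4 - q ^ 2 + 1) * (q ^ 8 - q ^ 4 + 1)) := by
      ring
    rw [this]; exact hq.mul_right _
  · have : (1 : ℤ) + (q ^ 5) ^ 2 + (q ^ 5) ^ 4
        = (q ^ 4 + q ^ 2 + 1) * (q ^ 16 - q ^ 14 + q ^ 10 - q ^ 8 + q ^ 6 - q ^ 2 + 1) := by
      ring
    rw [this]; exact hq.mul_right _

theorem pf_CII (hL : T_L2) : T_CII := by
  intro p q c a e u hp hp7 hc hca hu he hd hsg
  have hmul := sg_mul p a (by omega)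
  rw [← hsg] at hmul
  have hpc : p ^ c ∣ (p - 1) * (q ^ e * u) + 1 := by
    rw [hmul]; exact pow_dvd_pow p (by omega)
  -- `p` does not divide `q`
  have hpq : ¬ p ∣ q := by
    intro h
    have h1 : p ∣ q ^ 4 + q ^ 2 + 1 := (dvd_pow_self p (by omega)).trans hd
    have h2 : p ∣ q ^ 4 + q ^ 2 := dvd_add (h.trans (dvd_pow_self q (by norm_num)))
      (h.trans (dvd_pow_self q (by norm_num)))
    have h3 : p ∣ 1 := (Nat.dvd_add_right h2).mp h1
    have := Nat.le_of_dvd one_pos h3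
    omega
  have hcopN : Nat.Coprime (p ^ c) q :=
    Nat.Coprime.pow_left c ((Nat.Prime.coprime_iff_not_dvd hp).mpr hpq)
  have hdZ : ((p : ℤ) ^ c) ∣ (q : ℤ) ^ 4 + (q : ℤ) ^ 2 + 1 := by exact_mod_cast hd
  have hpcZ : ((p : ℤ) ^ c) ∣ (q : ℤ) ^ e * (((p - 1) * u : ℕ) : ℤ) + 1 := by
    have : (p - 1) * (q ^ e * u) + 1 = q ^ e * ((p - 1) * u) + 1 := by ring
    rw [this] at hpc
    exact_mod_cast hpc
  have main : (e = 1 ∨ e = 2 ∨ e = 4 ∨ e = 5) →
      p ^ (3 * c) ≤ 684 * u ^ 10 ∧ (p ≠ 7 → p ^ (3 * c) ≤ u ^ 10) := by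
    intro hk
    apply hL p c u ((p - 1) * u) hp hp7 hc rfl
    have hcopZ : IsCoprime ((p : ℤ) ^ c) ((q : ℤ) ^ e) := by
      have := Nat.Coprime.pow_right e hcopN
      have := Nat.isCoprime_iff_coprime.mpr this
      exact_mod_cast this
    have := key hdZ hpcZ hcopZ hk
    exact_mod_cast this
  interval_cases e
  · -- `e = 0`
    right
    apply both
    simp only [pow_zero, one_mul] at hsg
    rw [hsg]
    have h1 : p ^ c ≤ sg p a := (Nat.pow_le_pow_right (by omega) hca).trans (pow_le_sg p a)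
    calc p ^ (3 * c) ≤ p ^ (c * 10) := Nat.pow_le_pow_right (by omega) (by omega)
      _ = (p ^ c) ^ 10 := by rw [pow_mul]
      _ ≤ _ := Nat.pow_le_pow_left h1 10
  · right; exact main (by omega)
  · right; exact main (by omega)
  · -- `e = 3`
    have hprod : ((p : ℤ) ^ c) ∣ ((q : ℤ) ^ 3 - 1) * ((q : ℤ) ^ 3 + 1) := by
      have : ((q : ℤ) ^ 3 - 1) * ((q : ℤ) ^ 3 + 1)
        = ((q : ℤ) ^ 4 + (q : ℤ) ^ 2 + 1) * ((q : ℤ) ^ 2 - 1) := by ring
      rw [this]; exact hdZ.mul_right _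
    have hpZ : Prime (p : ℤ) := Nat.prime_iff_prime_int.mp hp
    have hcases : ((p : ℤ) ^ c) ∣ ((q : ℤ) ^ 3 - 1) ∨ ((p : ℤ) ^ c) ∣ ((q : ℤ) ^ 3 + 1) := by
      by_cases h1 : (p : ℤ) ∣ ((q : ℤ) ^ 3 - 1)
      · left
        have h2 : ¬ (p : ℤ) ∣ ((q : ℤ) ^ 3 + 1) := by
          intro h
          have h3 : (p : ℤ) ∣ 2 := by
            have := dvd_sub h h1
            have e : ((q : ℤ) ^ 3 + 1) - ((q : ℤ) ^ 3 - 1) = 2 := by ring
            rwa [e] at this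
          have := Int.le_of_dvd (by norm_num) h3
          omega
        have h3 : IsCoprime ((p : ℤ) ^ c) ((q : ℤ) ^ 3 + 1) :=
          ((Prime.coprime_iff_not_dvd hpZ).mpr h2).pow_left
        exact h3.dvd_of_dvd_mul_right hprod
      · right
        have h3 : IsCoprime ((p : ℤ) ^ c) ((q : ℤ) ^ 3 - 1) :=
          ((Prime.coprime_iff_not_dvd hpZ).mpr h1).pow_left
        exact h3.dvd_of_dvd_mul_left hprod
    rcases hcases with h | h
    · -- `q ^ 3 = 1`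
      have h4 : ((p : ℤ) ^ c) ∣ (((p - 1) * u + 1 : ℕ) : ℤ) := by
        have h5 := dvd_sub hpcZ (h.mul_right (((p - 1) * u : ℕ) : ℤ))
        have e5 : (q : ℤ) ^ 3 * (((p - 1) * u : ℕ) : ℤ) + 1
            - ((q : ℤ) ^ 3 - 1) * (((p - 1) * u : ℕ) : ℤ) = (((p - 1) * u + 1 : ℕ) : ℤ) := by
          push_cast; ring
        rwa [e5] at h5
      have h6 : p ^ c ∣ (p - 1) * u + 1 := by exact_mod_cast h4
      have h7 := Nat.le_of_dvd (Nat.succ_pos _) h6
      rcases Nat.lt_or_ge c 2 with hc2 | hc2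
      · have hc1 : c = 1 := by omega
        subst hc1
        rw [pow_one] at h6
        have h8 : p ∣ u - 1 := by
          have e8 : p * u = ((p - 1) * u + 1) + (u - 1) := by
            obtain ⟨x, rfl⟩ : ∃ x, p = x + 1 := ⟨p - 1, by omega⟩
            obtain ⟨y, rfl⟩ : ∃ y, u = y + 1 := ⟨u - 1, by omega⟩
            simp only [Nat.add_sub_cancel]
            ring
          exact (Nat.dvd_add_right h6).mp (Dvd.intro u e8)
        rcases Nat.eq_zero_or_pos (u - 1) with h0 | h0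
        · left; exact ⟨rfl, rfl, by omega⟩
        · right
          have := Nat.le_of_dvd h0 h8
          exact both (bound_one hp7 (by omega))
      · right
        exact both (bound_of_ge hp7 hc2 h7)
    · -- `q ^ 3 = - 1`
      right
      have hge : 1 ≤ (p - 1) * u := Nat.mul_pos (by omega) hu
      have h4 : ((p : ℤ) ^ c) ∣ (((p - 1) * u - 1 : ℕ) : ℤ) := by
        have h5 := dvd_sub (h.mul_right (((p - 1) * u : ℕ) : ℤ)) hpcZ
        have e5 : ((q : ℤ) ^ 3 + 1) * (((p - 1) * u : ℕ) : ℤ)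
            - ((q : ℤ) ^ 3 * (((p - 1) * u : ℕ) : ℤ) + 1) = (((p - 1) * u - 1 : ℕ) : ℤ) := by
          rw [Nat.cast_sub hge]; push_cast; ring
        rwa [e5] at h5
      have h6 : p ^ c ∣ (p - 1) * u - 1 := by exact_mod_cast h4
      have hpos : 0 < (p - 1) * u - 1 := by
        have : 6 * 1 ≤ (p - 1) * u := Nat.mul_le_mul (by omega) hu
        omega
      have h7 := Nat.le_of_dvd hpos h6
      rcases Nat.lt_or_ge c 2 with hc2 | hc2
      · have hc1 : c = 1 := by omega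
        subst hc1
        rw [pow_one] at h6
        have h8 : p ∣ u + 1 := by
          have e8 : p * u = ((p - 1) * u - 1) + (u + 1) := by
            obtain ⟨x, rfl⟩ : ∃ x, p = x + 1 := ⟨p - 1, by omega⟩
            simp only [Nat.add_sub_cancel] at hge ⊢
            have e9 : (x + 1) * u = x * u + u := by ring
            rw [e9]; omega
          exact (Nat.dvd_add_right h6).mp (Dvd.intro u e8)
        have := Nat.le_of_dvd (Nat.succ_pos _) h8
        exact both (bound_one hp7 this)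
      · exact both (bound_of_ge hp7 hc2 (by omega))
  · right; exact main (by omega)
  · right; exact main (by omega)

end Pool.Agent.H59.SL.CII
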