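import Pool.Agent.H29.SL.Targets2

/-!
Module `M3` of the board `so_modules` (`MP_5b3ee2_nt`): the cubic lemma, `c = 3`.
-/

set_option autoImplicit false

namespace Pool.Agent.H59.SL.M3

open Pool.Agent.H29.SL

theorem cast_neg {d X : ℕ} (h : d ∣ X ^ 2 + 1 - X) : (d : ℤ) ∣ (X : ℤ) ^ 2 + 1 - X := by
  have hle : X ≤ X ^ 2 + 1 := by nlinarith
  have h1 : ((X ^ 2 + 1 - X : ℕ) : ℤ) = (X : ℤ) ^ 2 + 1 - X := by
    rw [Nat.cast_sub hle]
    push_cast
    ring
  rw [← h1]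
  exact_mod_cast h

/-- The case `j = 0`, sign `-`. -/
theorem zero_neg (P u : ℤ) (hP : 6 ≤ P) (hu : 0 ≤ u) (h : P * (u ^ 2 - P - 3) = 3 + u) :
    False := by
  obtain ⟨m, hm⟩ : ∃ m, m = u ^ 2 - P - 3 := ⟨_, rfl⟩
  rw [← hm] at h
  have hm1 : 1 ≤ m := by
    by_contra h1
    push Not at h1
    have h2 : P * m ≤ 0 := mul_nonpos_of_nonneg_of_nonpos (by linarith) (by linarith)
    linarith
  have hu1 : u = P * m - 3 := by linarith
  rw [hu1] at hm
  rcases hm1.lt_or_eq with h1 | h1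
  · have hPm : 12 ≤ P * m := by nlinarith
    nlinarith [mul_nonneg (by linarith : (0 : ℤ) ≤ P - 1) (by linarith : (0 : ℤ) ≤ m - 1)]
  · rw [← h1] at hm
    rcases hP.lt_or_eq with h2 | h2
    · nlinarith
    · rw [← h2] at hm
      norm_num at hm

/-- The case `j = 0`, sign `+`. -/
theorem zero_pos (P u : ℤ) (hP : 6 ≤ P) (hu : 0 ≤ u) (h : P * (u ^ 2 - P - 3) = 3 - u) :
    P = 6 ∧ u = 3 := by
  obtain ⟨m, hm⟩ : ∃ m, m = u ^ 2 - P - 3 := ⟨_, rfl⟩
  rw [← hm] at h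
  rcases le_or_gt u 3 with h1 | h1
  · have hm0 : m = 0 := by
      have h2 : 0 ≤ m := by
        by_contra h3
        push Not at h3
        have h4 : P * m ≤ P * (-1) := mul_le_mul_of_nonneg_left (by linarith) (by linarith)
        linarith
      have h3 : m ≤ 0 := by
        by_contra h3
        push Not at h3
        have h4 : P * 1 ≤ P * m := mul_le_mul_of_nonneg_left (by linarith) (by linarith)
        linarith
      linarith
    rw [hm0] at h hm
    have hu3 : u = 3 := by linarith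
    rw [hu3] at hm
    exact ⟨by linarith, hu3⟩
  · exfalso
    have h2 : m ≤ -1 := by
      by_contra h3
      push Not at h3
      have h4 : 0 ≤ P * m := mul_nonneg (by linarith) (by linarith)
      linarith
    have h5 : P * m ≤ P * (-1) := mul_le_mul_of_nonneg_left h2 (by linarith)
    have h6 : P + 3 ≤ u := by linarith
    nlinarith

/-- `j ≤ bound`: from `(1 + j P) ^ 4 < (P + 1) ^ 5` we get `j ^ 4 < 2 (P + 1)`. -/
theorem j_bound (P j : ℤ) (hP : 30 ≤ P) (hj : 1 ≤ j)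
    (h : (1 + j * P) ^ 4 < (P + 1) ^ 5) : j ^ 4 < 2 * (P + 1) := by
  by_contra hc
  push Not at hc
  have h1 : (j * P) ^ 4 ≤ (1 + j * P) ^ 4 :=
    pow_le_pow_left₀ (by positivity) (by linarith) 4
  have h2 : 2 * (P + 1) * P ^ 4 ≤ j ^ 4 * P ^ 4 := mul_le_mul_of_nonneg_right hc (by positivity)
  have h3 : (j * P) ^ 4 = j ^ 4 * P ^ 4 := by ring
  have h4 : 2 * (P + 1) * P ^ 4 < (P + 1) ^ 5 := by linarith
  -- but `(P + 1) ^ 4 ≤ 2 P ^ 4`
  have h5 : (P + 1) ^ 2 * 100 ≤ 110 * P ^ 2 := by nlinarith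
  have h6 : ((P + 1) ^ 2 * 100) ^ 2 ≤ (110 * P ^ 2) ^ 2 := pow_le_pow_left₀ (by positivity) h5 2
  have h7 : (P + 1) ^ 4 ≤ 2 * P ^ 4 := by nlinarith [sq_nonneg (P ^ 2)]
  have h8 : (P + 1) * (P + 1) ^ 4 ≤ (P + 1) * (2 * P ^ 4) :=
    mul_le_mul_of_nonneg_left h7 (by linarith)
  nlinarith

theorem j_small (P j : ℤ) (hP : 30 ≤ P) (hj : 1 ≤ j) (h : j ^ 4 < 2 * (P + 1)) :
    j ^ 2 + 4 * j + 8 < P := by
  rcases le_or_gt j 3 with h3 | h3
  · have : j = 1 ∨ j = 2 ∨ j = 3 := by omega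
    rcases this with rfl | rfl | rfl
    · linarith
    · linarith
    · linarith
  · have h4 : 4 ≤ j := h3
    have h5 : 16 ≤ j ^ 2 := by nlinarith
    have h6 : 16 * j ^ 2 ≤ j ^ 4 := by nlinarith
    nlinarith

/-- The case `j ≥ 1`, `P ≥ 30`. -/
theorem large (P u s j : ℤ) (hP : 30 ≤ P) (hu : 0 ≤ u) (hs : s = 1 ∨ s = -1) (hj : 1 ≤ j)
    (hE : P * u ^ 2 + s * u = (3 + j) + (3 + 3 * j) * P + (1 + 3 * j) * P ^ 2 + j * P ^ 3)
    (hlow : (1 + j * P) * (P + 1) ≤ u ^ 2) : (P + 1) ^ 9 ≤ u ^ 8 := by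
  by_contra hc
  push Not at hc
  have h1 : ((1 + j * P) * (P + 1)) ^ 4 ≤ (u ^ 2) ^ 4 :=
    pow_le_pow_left₀ (by positivity) hlow 4
  have h2 : (1 + j * P) ^ 4 * (P + 1) ^ 4 < (P + 1) ^ 5 * (P + 1) ^ 4 := by
    calc (1 + j * P) ^ 4 * (P + 1) ^ 4 = ((1 + j * P) * (P + 1)) ^ 4 := by ring
      _ ≤ (u ^ 2) ^ 4 := h1
      _ = u ^ 8 := by ring
      _ < (P + 1) ^ 9 := hc
      _ = (P + 1) ^ 5 * (P + 1) ^ 4 := by ring
  have h3 : (1 + j * P) ^ 4 < (P + 1) ^ 5 := lt_of_mul_lt_mul_right h2 (by positivity)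
  have h4 := j_small P j hP hj (j_bound P j hP hj h3)
  obtain ⟨m, hm⟩ : ∃ m, m = (3 + 3 * j) + (1 + 3 * j) * P + j * P ^ 2 - u ^ 2 := ⟨_, rfl⟩
  have hsu : s * u = 3 + j + m * P := by rw [hm]; linear_combination hE
  -- `u < (j + 1) P`
  have hup : u < (j + 1) * P := by
    by_contra h5
    push Not at h5
    have h6 : s * u ≥ -u := by rcases hs with rfl | rfl <;> linarith
    have h7 : (3 + j) + (3 + 3 * j) * P + (1 + 3 * j) * P ^ 2 + j * P ^ 3 ≥ P * u ^ 2 - u := by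
      linarith
    have h8 : P * u ^ 2 - u ≥ P * ((j + 1) * P) ^ 2 - (j + 1) * P := by
      have h9 : 0 ≤ (j + 1) * P := by positivity
      have h10 : u * (P * u - 1) ≥ (j + 1) * P * (P * ((j + 1) * P) - 1) := by
        apply mul_le_mul h5 _ _ (by linarith)
        · nlinarith
        · nlinarith
      nlinarith
    have h11 : P * ((j + 1) * P) ^ 2 - (j + 1) * P > (3 + j) + (3 + 3 * j) * P
        + (1 + 3 * j) * P ^ 2 + j * P ^ 3 := by
      have a1 : 30 * P ^ 2 ≤ P ^ 3 := by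
        have : P ^ 2 * 30 ≤ P ^ 2 * P := mul_le_mul_of_nonneg_left hP (by positivity)
        calc 30 * P ^ 2 = P ^ 2 * 30 := by ring
          _ ≤ P ^ 2 * P := this
          _ = P ^ 3 := by ring
      have a2 : 30 * P ≤ P ^ 2 := by
        have : P * 30 ≤ P * P := mul_le_mul_of_nonneg_left hP (by linarith)
        calc 30 * P = P * 30 := by ring
          _ ≤ P * P := this
          _ = P ^ 2 := by ring
      have a3 : (j ^ 2 + j + 1) * (30 * P ^ 2) ≤ (j ^ 2 + j + 1) * P ^ 3 :=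
        mul_le_mul_of_nonneg_left a1 (by positivity)
      have a4 : (30 * j ^ 2 + 27 * j + 29) * (30 * P) ≤ (30 * j ^ 2 + 27 * j + 29) * P ^ 2 :=
        mul_le_mul_of_nonneg_left a2 (by positivity)
      have a5 : (900 * j ^ 2 + 806 * j + 866) * 30 ≤ (900 * j ^ 2 + 806 * j + 866) * P :=
        mul_le_mul_of_nonneg_left hP (by positivity)
      have a6 : 0 ≤ j ^ 2 := by positivity
      linarith
    linarith
  -- bounds for `m`
  have hm1 : m ≤ j + 2 := by
    by_contra h5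
    push Not at h5
    have h6 : (j + 3) * P ≤ m * P := mul_le_mul_of_nonneg_right (by linarith) (by linarith)
    have h7 : s * u ≤ u := by rcases hs with rfl | rfl <;> linarith
    nlinarith
  have hm2 : -(j + 2) ≤ m := by
    by_contra h5
    push Not at h5
    have h6 : m * P ≤ (-(j + 3)) * P := mul_le_mul_of_nonneg_right (by linarith) (by linarith)
    have h7 : s * u ≥ -u := by rcases hs with rfl | rfl <;> linarith
    nlinarith
  -- `K = P κ`
  have hss : (s * u) ^ 2 = u ^ 2 := by rcases hs with rfl | rfl <;> ring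
  have hK : j ^ 2 + 3 * j + 6 + m
      = P * (1 + 3 * j - 2 * (3 + j) * m + (j - m ^ 2) * P) := by
    rw [hsu] at hss
    linear_combination hss + hm
  have hK0 : 0 < j ^ 2 + 3 * j + 6 + m := by nlinarith
  have hK1 : j ^ 2 + 3 * j + 6 + m < P := by linarith
  have hdvd : P ∣ j ^ 2 + 3 * j + 6 + m := Dvd.intro _ hK.symm
  have := Int.le_of_dvd hK0 hdvd
  linarith

/-- The common part. -/
theorem main (P u s : ℤ) (hP : 6 ≤ P) (hu : 0 ≤ u) (hs : s = 1 ∨ s = -1)
    (h : (P + 1) ^ 3 ∣ (P * u) ^ 2 + s * (P * u) + 1) :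
    (30 ≤ P → (P + 1) ^ 9 ≤ u ^ 8 ∨ P * (u ^ 2 - P - 3) = 3 - s * u) := by
  intro hP30
  obtain ⟨w, hw⟩ := h
  have hPu : 0 ≤ P * u := by positivity
  have hF0 : 0 < (P * u) ^ 2 + s * (P * u) + 1 := by
    rcases hs with rfl | rfl <;> nlinarith
  have hw0 : 0 < w := by
    by_contra h1
    push Not at h1
    have h2 : (P + 1) ^ 3 * w ≤ 0 := mul_nonpos_of_nonneg_of_nonpos (by positivity) h1
    linarith
  have hu1 : 1 ≤ u := by
    by_contra h1
    push Not at h1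
    have h2 : u = 0 := by linarith
    rw [h2] at hw
    have h3 : (P + 1) ^ 3 * w = 1 := by linear_combination -hw
    have h4 : (P + 1) ^ 3 * 1 ≤ (P + 1) ^ 3 * w :=
      mul_le_mul_of_nonneg_left (by linarith) (by positivity)
    nlinarith [sq_nonneg P]
  obtain ⟨t, ht⟩ : ∃ t, t = P * u ^ 2 + s * u - w * (P ^ 2 + 3 * P + 3) := ⟨_, rfl⟩
  have hwt : w = 1 + P * t := by
    rw [ht]
    linear_combination -hw
  have ht0 : 0 ≤ t := by
    by_contra h1
    push Not at h1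
    have h2 : P * t ≤ P * (-1) := mul_le_mul_of_nonneg_left (by linarith) (by linarith)
    linarith
  rcases ht0.lt_or_eq with h1 | h1
  · left
    apply large P u s t hP30 hu hs h1
    · rw [hwt] at ht
      linear_combination -ht
    · -- `w p ≤ u ^ 2`
      have h2 : (P * u) ^ 2 + s * (P * u) + 1 ≤ (P * u + 1) ^ 2 := by
        rcases hs with rfl | rfl <;> nlinarith
      have h3 : (P * u + 1) ^ 2 ≤ ((P + 1) * u) ^ 2 :=
        pow_le_pow_left₀ (by linarith) (by linarith) 2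
      have h4 : (P + 1) ^ 2 * ((1 + t * P) * (P + 1)) ≤ (P + 1) ^ 2 * u ^ 2 := by
        calc (P + 1) ^ 2 * ((1 + t * P) * (P + 1)) = (P + 1) ^ 3 * w := by rw [hwt]; ring
          _ = (P * u) ^ 2 + s * (P * u) + 1 := hw.symm
          _ ≤ ((P + 1) * u) ^ 2 := h2.trans h3
          _ = (P + 1) ^ 2 * u ^ 2 := by ring
      exact le_of_mul_le_mul_left h4 (by positivity)
  · right
    have h2 : w = 1 := by rw [hwt, ← h1]; ring
    rw [h2] at ht
    rw [← h1] at ht
    linear_combination -ht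

/-- Small `p`. -/
theorem small_cases : ∀ p ∈ Finset.Icc 7 30, ∀ u ∈ Finset.range 45,
    (p ^ 3 ∣ ((p - 1) * u) ^ 2 + (p - 1) * u + 1 ∨
      p ^ 3 ∣ ((p - 1) * u) ^ 2 + 1 - (p - 1) * u) → (p = 7 ∧ u = 3) ∨ p ^ 9 ≤ u ^ 8 := by
  decide +kernel

theorem pf_M3 : T_M3 := by
  intro p u X hp hp7 hX h
  rcases Nat.lt_or_ge p 31 with hp31 | hp31
  · rcases Nat.lt_or_ge u 45 with hu | hu
    · subst hX
      exact small_cases p (Finset.mem_Icc.mpr ⟨hp7, by omega⟩) u (Finset.mem_range.mpr hu) h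
    · right
      have h30 : p ≠ 30 := by
        rintro rfl
        exact absurd hp (by norm_num)
      calc p ^ 9 ≤ 29 ^ 9 := Nat.pow_le_pow_left (by omega) 9
        _ ≤ 45 ^ 8 := by norm_num
        _ ≤ u ^ 8 := Nat.pow_le_pow_left hu 8
  · obtain ⟨P, rfl⟩ : ∃ P, p = P + 1 := ⟨p - 1, by omega⟩
    rw [Nat.add_sub_cancel] at hX
    have hP30 : (30 : ℤ) ≤ P := by
      have : 30 ≤ P := by omega
      exact_mod_cast this
    have hu0 : (0 : ℤ) ≤ u := Int.natCast_nonneg u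
    have hXZ : (X : ℤ) = P * u := by rw [hX]; push_cast; ring
    have big : ((P : ℤ) + 1) ^ 9 ≤ (u : ℤ) ^ 8 → (P + 1) ^ 9 ≤ u ^ 8 := by
      intro h1
      exact_mod_cast h1
    rcases h with h | h
    · have h1 : (((P + 1) ^ 3 : ℕ) : ℤ) ∣ (X : ℤ) ^ 2 + X + 1 := by exact_mod_cast h
      rw [hXZ] at h1
      push_cast at h1
      rcases main P u 1 (by linarith) hu0 (Or.inl rfl) (by rw [one_mul]; exact h1) hP30
        with h2 | h2
      · exact Or.inr (big h2)
      · rw [one_mul] at h2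
        obtain ⟨h3, h4⟩ := zero_pos P u (by linarith) hu0 h2
        linarith
    · have h1 := cast_neg h
      rw [hXZ] at h1
      push_cast at h1
      rcases main P u (-1) (by linarith) hu0 (Or.inr rfl) (by
        have e : ((P : ℤ) * u) ^ 2 + -1 * (P * u) + 1 = (P * u) ^ 2 + 1 - P * u := by ring
        rw [e]
        exact h1) hP30 with h2 | h2
      · exact Or.inr (big h2)
      · exact absurd (zero_neg P u (by linarith) hu0 (by rw [h2]; ring)) id

end Pool.Agent.H59.SL.M3
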