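import Pool.Agent.H29.SL.Targets

/-!
The module `SET` of the board `so_modules` (`MP_5b3ee2_nt`): every odd perfect number in
Eulerian form `q ^ k * n ^ 2` gives the data `Dat q k n`.
-/

set_option autoImplicit false

namespace Pool.Agent.H59.SL.SET

open Pool.Agent.H29.SL

theorem sg_succ (p a : ℕ) : sg p (a + 1) = sg p a + p ^ (a + 1) := by
  unfold sg
  rw [Finset.sum_range_succ]

theorem sg_mod_two {p : ℕ} (hp : Odd p) (a : ℕ) : sg p a % 2 = (a + 1) % 2 := by
  induction a with
  | zero => simp [sg]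
  | succ a ih =>
    rw [sg_succ]
    have h : p ^ (a + 1) % 2 = 1 := Nat.odd_iff.mp (hp.pow)
    omega

theorem sg_mod_self (q k : ℕ) : sg q k ≡ 1 [MOD q] := by
  induction k with
  | zero => simp [sg, Nat.ModEq]
  | succ a ih =>
    rw [sg_succ]
    have h : q ^ (a + 1) ≡ 0 [MOD q] := (Nat.modEq_zero_iff_dvd).mpr (dvd_pow_self q (by omega))
    simpa using ih.add h

theorem sg_pos (p a : ℕ) : 0 < sg p a := by
  unfold sg
  exact Finset.sum_pos' (fun i _ => Nat.zero_le _) ⟨0, by simp, by simp⟩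

theorem pf_SET : T_SET := by
  intro q k n hq hq4 hk4 hcop hoddN hperf
  have hNpos : 0 < q ^ k * n ^ 2 := hperf.2
  have hn : n ≠ 0 := by
    rintro rfl
    simp at hNpos
  have hodd : Odd n := by
    have := (Nat.odd_mul.mp hoddN).2
    exact (Nat.odd_pow_iff (by norm_num)).mp this
  have hqodd : Odd q := Nat.odd_iff.mpr (by omega)
  have hn2 : n ^ 2 ≠ 0 := pow_ne_zero 2 hn
  -- multiplicativity
  have hsum2 : ∑ i ∈ (q ^ k * n ^ 2).divisors, i = 2 * (q ^ k * n ^ 2) :=
    (Nat.perfect_iff_sum_divisors_eq_two_mul hNpos).mp hperf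
  have hsig : (ArithmeticFunction.sigma 1) (q ^ k * n ^ 2) = 2 * (q ^ k * n ^ 2) := by
    rw [ArithmeticFunction.sigma_one_apply]; exact hsum2
  have hcop2 : Nat.Coprime (q ^ k) (n ^ 2) := Nat.Coprime.pow k 2 hcop
  have hmul := (ArithmeticFunction.isMultiplicative_sigma (k := 1)).map_mul_of_coprime hcop2
  have hsq : (ArithmeticFunction.sigma 1) (q ^ k) = sg q k := by
    rw [ArithmeticFunction.sigma_one_apply_prime_pow hq]; rfl
  have hpf : (n ^ 2).primeFactors = n.primeFactors := Nat.primeFactors_pow n (by norm_num)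
  have hsn : (ArithmeticFunction.sigma 1) (n ^ 2)
      = ∏ p ∈ n.primeFactors, sg p ((n ^ 2).factorization p) := by
    rw [(ArithmeticFunction.isMultiplicative_sigma (k := 1)).multiplicative_factorization _ hn2]
    unfold Finsupp.prod
    rw [Nat.support_factorization, hpf]
    apply Finset.prod_congr rfl
    intro p hp
    exact (ArithmeticFunction.sigma_one_apply_prime_pow (Nat.prime_of_mem_primeFactors hp)).trans rfl
  rw [hsig, hsq, hsn] at hmul
  -- the data
  set a : ℕ → ℕ := fun p => (n ^ 2).factorization p with ha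
  set e : ℕ → ℕ := fun p => (sg p (a p)).factorization q with he
  set u : ℕ → ℕ := fun p => sg p (a p) / q ^ (e p) with hu
  have haeven : ∀ p, Even (a p) := by
    intro p
    simp only [ha, Nat.factorization_pow, Finsupp.smul_apply, smul_eq_mul]
    exact ⟨n.factorization p, by ring⟩
  have hue : ∀ p, q ^ e p * u p = sg p (a p) := fun p =>
    Nat.ordProj_mul_ordCompl_eq_self (sg p (a p)) q
  have huq : ∀ p, ¬ q ∣ u p := fun p => Nat.not_dvd_ordCompl hq (sg_pos p (a p)).ne'
  have hprod : ∏ p ∈ n.primeFactors, sg p (a p)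
      = q ^ (∑ p ∈ n.primeFactors, e p) * ∏ p ∈ n.primeFactors, u p := by
    rw [← Finset.prod_pow_eq_pow_sum, ← Finset.prod_mul_distrib]
    exact Finset.prod_congr rfl (fun p _ => (hue p).symm)
  have huodd : ∀ p ∈ n.primeFactors, Odd (u p) := by
    intro p hp
    have hpodd : Odd p := by
      have := Nat.dvd_of_mem_primeFactors hp
      exact Odd.of_dvd_nat hodd this
    have h1 : Odd (sg p (a p)) := by
      have h2 := sg_mod_two hpodd (a p)
      have h3 := haeven p
      rw [Nat.odd_iff, h2]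
      rw [Nat.even_iff] at h3
      omega
    rw [← hue p] at h1
    exact (Nat.odd_mul.mp h1).2
  set E := ∑ p ∈ n.primeFactors, e p with hE
  set P := ∏ p ∈ n.primeFactors, u p with hP
  have hPq : ¬ q ∣ P := by
    intro h
    obtain ⟨p, _, hp⟩ := (Prime.dvd_finsetProd_iff hq.prime u).mp h
    exact huq p hp
  have hmul2 : 2 * (q ^ k * n ^ 2) = sg q k * (q ^ E * P) := by
    rw [hmul, ← hprod]
  -- `q ^ k` divides `q ^ E * P`
  have hcopsg : Nat.Coprime q (sg q k) := by
    rw [Nat.Prime.coprime_iff_not_dvd hq]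
    intro h
    have h1 := (Nat.modEq_zero_iff_dvd).mpr h
    have h2 : 0 ≡ 1 [MOD q] := h1.symm.trans (sg_mod_self q k)
    have h3 : q ∣ 1 := (Nat.modEq_zero_iff_dvd).mp h2.symm
    have := Nat.le_of_dvd one_pos h3
    have := hq.two_le
    omega
  have hdvd : q ^ k ∣ q ^ E * P := by
    have h1 : q ^ k ∣ sg q k * (q ^ E * P) := by
      rw [← hmul2]; exact ⟨2 * n ^ 2, by ring⟩
    exact (Nat.Coprime.pow_left k hcopsg).dvd_of_dvd_mul_left h1
  obtain ⟨D, hD⟩ := hdvd
  have hqk : 0 < q ^ k := pow_pos hq.pos k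
  have hsD : 2 * n ^ 2 = sg q k * D := by
    apply Nat.eq_of_mul_eq_mul_left hqk
    calc q ^ k * (2 * n ^ 2) = 2 * (q ^ k * n ^ 2) := by ring
      _ = sg q k * (q ^ k * D) := by rw [hmul2, hD]
      _ = q ^ k * (sg q k * D) := by ring
  have hqn : ¬ q ∣ 2 * n ^ 2 := by
    intro h
    rcases (Nat.Prime.dvd_mul hq).mp h with h | h
    · have := Nat.le_of_dvd (by norm_num) h
      have := hq.two_le
      omega
    · have := hq.dvd_of_dvd_pow h
      exact ((Nat.Prime.coprime_iff_not_dvd hq).mp hcop) this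
  have hDq : ¬ q ∣ D := fun h => hqn (hsD ▸ h.mul_left _)
  have hkE : E = k := by
    rcases lt_trichotomy E k with h | h | h
    · exfalso
      obtain ⟨j, hj⟩ : ∃ j, k = E + (j + 1) := ⟨k - E - 1, by omega⟩
      have h1 : q ^ E * P = q ^ E * (q ^ (j + 1) * D) := by rw [hD, hj]; ring
      have h2 := Nat.eq_of_mul_eq_mul_left (pow_pos hq.pos E) h1
      exact hPq (h2 ▸ (dvd_mul_of_dvd_left (dvd_pow_self q (by omega)) D))
    · exact h
    · exfalso
      obtain ⟨j, hj⟩ : ∃ j, E = k + (j + 1) := ⟨E - k - 1, by omega⟩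
      have h1 : q ^ k * (q ^ (j + 1) * P) = q ^ k * D := by rw [← hD, hj]; ring
      have h2 := Nat.eq_of_mul_eq_mul_left hqk h1
      exact hDq (h2 ▸ (dvd_mul_of_dvd_left (dvd_pow_self q (by omega)) P))
  have hPD : P = D := by
    rw [hkE] at hD
    exact Nat.eq_of_mul_eq_mul_left hqk hD
  obtain ⟨S, hS⟩ : ∃ S, sg q k = 2 * S := by
    have h1 := sg_mod_two hqodd k
    exact ⟨sg q k / 2, by omega⟩
  have hSD : n ^ 2 = S * D := by
    rw [hS] at hsD
    have : 2 * n ^ 2 = 2 * (S * D) := by rw [hsD]; ring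
    exact Nat.eq_of_mul_eq_mul_left (by norm_num) this
  exact ⟨{ S := S, D := D, a := a, e := e, u := u, hq := hq, hq4 := hq4, hk4 := hk4, hn := hn,
           hcop := hcop, hodd := hodd, hS := hS, hSD := hSD, ha := fun _ => rfl,
           haeven := haeven, hue := fun p _ => hue p, huq := fun p _ => huq p,
           huodd := huodd, hsum := hkE, hprod := hPD }⟩

end Pool.Agent.H59.SL.SET
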